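import Pool.Agent.Lib.MP_c6cae0_co.h37.CS4

/-!
# Four-fold sumsets in `F_2^n` and almost covered cosets: codimension `log (1/α) log (1/β)` up to `log²`

For `A, B ⊆ F_2^n` of densities at least `α, β` and `0 < η < 1` there is a subspace `W` with
`codim W ≤ (C / η²) log (2/α) log (2/β) log (2 + (log (2/α) + log (2/β)) / η)²` such that
* `W ⊆ A + A + B + B`;
* for every `w ∈ W`, at least `(1 - η) |A| |B|` pairs `(a, b) ∈ A × B` satisfy `a + b + w ∈ A + B`;
* `A + B` contains at least `(1 - η) |W|` points of the coset `a + b + W`, for some `a ∈ A`, `b ∈ B`.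
-/

open Finset
open scoped Pointwise Classical

theorem Pool.Agent.Results.MP_c6cae0_co.FourFold.result :
    ∃ C : ℝ, 0 < C ∧ ∀ (n : ℕ) (α β η : ℝ), 0 < α → 0 < β → 0 < η → η < 1 →
    ∀ A B : Finset (Fin n → ZMod 2), α * (2 : ℝ) ^ n ≤ A.card → β * (2 : ℝ) ^ n ≤ B.card →
      ∃ W : Submodule (ZMod 2) (Fin n → ZMod 2),
        (n : ℝ) - Module.finrank (ZMod 2) W ≤
          C / η ^ 2 * Real.log (2 / α) * Real.log (2 / β) *
            Real.log (2 + (Real.log (2 / α) + Real.log (2 / β)) / η) ^ 2 ∧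
        (∀ w ∈ W, w ∈ A + A + B + B) ∧
        (∀ w ∈ W, (1 - η) * (A.card * B.card) ≤
          ((A ×ˢ B).filter fun p => p.1 + p.2 + w ∈ A + B).card) ∧
        ∃ a ∈ A, ∃ b ∈ B, (1 - η) * (Nat.card W : ℝ) ≤
          ((univ.filter fun x : Fin n → ZMod 2 => x ∈ W ∧ a + b + x ∈ A + B).card : ℝ) :=
  PH.four_main
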