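import Pool.Agent.Lib.MP_c6cae0_co.PB.U4

/-!
# Linear codimension with `O (log log (1/α))` summands

For every `η > 0` there is `C` such that for `A ⊆ F_2^n` of density at least `α` and every
`k ≥ C log (2 + log (1/α))` the `k`-fold sumset `kA` contains an affine subspace of codimension at most
`(1 + η) log₂ (1/α)`.
-/

set_option autoImplicit false

open Finset

theorem Pool.Agent.Results.MP_c6cae0_co.LogLog.result :
    ∀ η : ℝ, 0 < η → ∃ C : ℝ, ∀ (n : ℕ) (α : ℝ), 0 < α → α ≤ 1 →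
    ∀ A : Finset (Fin n → ZMod 2), α * (2 : ℝ) ^ n ≤ A.card →
      ∀ k : ℕ, C * Real.log (2 + Real.log (1 / α)) ≤ k →
        ∃ (x : Fin n → ZMod 2) (W : Submodule (ZMod 2) (Fin n → ZMod 2)),
          (n : ℝ) - Module.finrank (ZMod 2) W ≤ (1 + η) * (Real.log (1 / α) / Real.log 2) ∧
          ∀ w ∈ W, ∃ a : Fin k → (Fin n → ZMod 2), (∀ i, a i ∈ A) ∧ x + w = ∑ i, a i :=
  PB.loglog_main
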