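import Pool.Agent.Lib.MP_c6cae0_co.PC.V2

/-!
# A bounded number of summands with exponent `1 + ε`

There is an absolute `C` such that for `A ⊆ F_2^n` of density at least `α`, `L = log (1/α)`, and every
`k ≥ 4` the `k`-fold sumset `kA` contains an affine subspace of codimension at most `C L (1 + L)^(C/k)`.
-/

set_option autoImplicit false

open Finset

theorem Pool.Agent.Results.MP_c6cae0_co.PowerLaw.result :
    ∃ C : ℝ, 0 < C ∧ ∀ (n : ℕ) (α : ℝ), 0 < α → α ≤ 1 →
    ∀ A : Finset (Fin n → ZMod 2), α * (2 : ℝ) ^ n ≤ A.card → ∀ k : ℕ, 4 ≤ k →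
      ∃ (x : Fin n → ZMod 2) (W : Submodule (ZMod 2) (Fin n → ZMod 2)),
        (n : ℝ) - Module.finrank (ZMod 2) W ≤
          C * Real.log (1 / α) * (1 + Real.log (1 / α)) ^ (C / k) ∧
        ∀ w ∈ W, ∃ a : Fin k → (Fin n → ZMod 2), (∀ i, a i ∈ A) ∧ x + w = ∑ i, a i :=
  PB.few_main
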