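import Pool.Agent.Lib.MP_c6cae0_co.T3.M5

/-!
# Subspaces almost contained in `A + A` and affine subspaces in `A + A + A`

`A ⊆ F_2^n` of density at least `α`, `L = log (1 / α)`, `l = log (1 / γ)`. There is a linear subspace
`W` of codimension `O (L ((1 + L) (1 + l))^2 log^2 (2 + (1 + L) (1 + l)))` with fewer than `γ |W|`
points outside `A + A`; for `γ ≤ α` (for instance `γ = α`, codimension `O (L^5 log^2 L)`) a coset of
`W` is contained in `A + A + A`.
-/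

theorem Pool.Agent.Results.MP_c6cae0_co.ThreeFold.result :
    ∃ C : ℝ, 0 < C ∧ ∀ (n : ℕ) (α γ : ℝ), 0 < α → α ≤ 1 → 0 < γ → γ ≤ 1 →
      ∀ A : Finset (Fin n → ZMod 2), α * (2 : ℝ) ^ n ≤ A.card →
        ∃ (W : Submodule (ZMod 2) (Fin n → ZMod 2)) (x : Fin n → ZMod 2),
          (n : ℝ) - Module.finrank (ZMod 2) W ≤ C * Real.log (1 / α) *
            ((1 + Real.log (1 / α)) * (1 + Real.log (1 / γ))) ^ 2 *
            Real.log (2 + (1 + Real.log (1 / α)) * (1 + Real.log (1 / γ))) ^ 2 ∧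
          (Nat.card {w : Fin n → ZMod 2 // w ∈ W ∧ ¬ ∃ a ∈ A, ∃ b ∈ A, a + b = w} : ℝ) <
            γ * Nat.card W ∧
          (γ ≤ α → ∀ w ∈ W, ∃ a ∈ A, ∃ b ∈ A, ∃ d ∈ A, x + w = a + b + d) :=
  PT.three_main
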